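import Pool.Agent.Lib.MP_e6fef2_lc.Bridge
import Pool.Agent.Lib.MP_c5d73d_lc.F.H62.Roapi

/-!
Modules BR2 (countable covering) and BR3 (typed `PFA(ω₁)`).
-/

set_option autoImplicit false

universe u

open Cardinal Filter

namespace Pool.Agent.Lib.MP_e6fef2_lc.H11

open Pool.Agent.Lib.MP_100a6c_lc
open Pool.Agent.Lib.MP_c5d73d_lc.F (pr)
open Pool.Agent.Lib.MP_c5d73d_lc.F

/-- BR2. -/
theorem br2 (hclub : ClubStatement.{u}) (hgen : GenStatement.{u}) (hxnz : XnzStatement.{u}) :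
    Br2Statement.{u} := by
  obtain ⟨hne, hct, hcc, hconst, -, -, -, -, -, -, -⟩ := hclub
  intro S _ _ hSG B _ ι hι hPE X f hf
  by_contra hu
  set u : B := ⨆ Y : {Y : Set X // Y.Countable}, ⨅ n, ⨆ x : Y.1, f n x with hudef
  have hb : uᶜ ≠ ⊥ := by
    intro h
    exact hu (compl_eq_bot.1 h)
  -- a condition `s` compatible with `uᶜ`
  obtain ⟨s, hs⟩ : ∃ s : S, ι (pr s) ⊓ uᶜ ≠ ⊥ := by
    by_contra hall
    push Not at hall
    apply hb
    have h1 : (⨆ p : {p : S // pr p ≤ (⊤ : H1.RO S)}, pr p.1 : H1.RO S) = ⊤ :=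
      (H62.eq_iSup_pr (⊤ : H1.RO S)).symm
    have htop : ι ⊤ = ⊤ := by
      have h2 := hι.sSup Set.univ
      rw [sSup_univ] at h2
      rw [h2]
      refine top_le_iff.1 ?_
      have h3 : ι (⊤ : H1.RO S) ⊔ ι (⊤ : H1.RO S)ᶜ = ⊤ := by
        rw [hι.compl, sup_compl_eq_top]
      rw [← h3]
      exact sup_le (le_iSup₂_of_le ⊤ (Set.mem_univ _) le_rfl)
        (le_iSup₂_of_le ⊤ᶜ (Set.mem_univ _) le_rfl)
    have h2 : ι ⊤ = ⨆ a ∈ Set.range (fun p : S => (pr p : H1.RO S)), ι a := by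
      rw [← hι.sSup]
      congr 1
      refine (top_le_iff.1 ?_).symm
      rw [← h1]
      exact iSup_le fun p => le_sSup ⟨p.1, rfl⟩
    rw [htop] at h2
    have h3 : uᶜ = (⨆ a ∈ Set.range (fun p : S => (pr p : H1.RO S)), ι a) ⊓ uᶜ := by
      rw [← h2, top_inf_eq]
    rw [h3]
    refine le_bot_iff.1 ?_
    rw [iSup₂_inf_eq]
    refine iSup₂_le ?_
    rintro _ ⟨p, rfl⟩
    exact (hall p).le
  -- the countable set `N`
  have h1 : ∀ᶠ N in club.{u}, (∀ n, In N (f n)) ∧ In N (uᶜ : B) ∧ In N s ∧ N.Countable ∧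
      (∀ φ : X → B, In N φ → gen B N ⊓ ⨆ t, φ t ≤ ⨆ (t : X) (_ : In N t), φ t) ∧
      (∀ b : B, In N b → ∀ s : S, In N s → ι (pr s) ⊓ b ≠ ⊥ →
        ∃ t ≤ s, In N t ∧ ∀ s' ≤ t, SG N s' → ι (pr s') ⊓ (gen B N ⊓ b) ≠ ⊥) ∧
      (∀ s : S, In N s → ∃ s' ≤ s, SG N s') := by
    filter_upwards [hcc _ fun n => hconst _ (f n), hconst _ (uᶜ : B), hconst _ s, hct,
      (hgen B).1 X, hxnz S hSG B ι hι hPE, hSG] with N h1 h2 h3 h4 h5 h6 h7
    exact ⟨h1, h2, h3, h4, h5, h6, h7⟩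
  obtain ⟨N, -, -, hfN, hbN, hsN, hNc, hG, hX, hSGN⟩ := hne _ h1 ∅ Set.countable_empty
  obtain ⟨t, -, htN, ht⟩ := hX _ hbN s hsN hs
  obtain ⟨s', hs't, hs'⟩ := hSGN t htN
  refine ht s' hs't hs' ?_
  have hgu : gen B N ≤ u := by
    have hYc : {x : X | In N x}.Countable := by
      have hinj : Function.Injective (fun x : X => (⟨X, x⟩ : El.{u})) := by
        intro x y hxy
        simpa using hxy
      exact hNc.preimage hinj
    refine le_trans ?_ (le_iSup (fun Y : {Y : Set X // Y.Countable} => ⨅ n, ⨆ x : Y.1, f n x)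
      ⟨_, hYc⟩)
    refine le_iInf fun n => ?_
    have h2 := hG (f n) (hfN n)
    rw [hf n, inf_top_eq] at h2
    refine h2.trans (iSup₂_le fun x hx => ?_)
    exact le_iSup_of_le (⟨x, hx⟩ : {x : X | In N x}) le_rfl
  have h2 : gen B N ⊓ uᶜ = ⊥ := by
    refine le_bot_iff.1 ((inf_le_inf_right _ hgu).trans ?_)
    rw [inf_compl_self]
  rw [h2, inf_bot_eq]

/-- BR3. -/
theorem br3 (hbr1 : Br1Statement.{u}) : Br3Statement.{u} := by
  intro B _ hT le hle hprop D hD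
  obtain ⟨G, -, hup, hdir, hmeet⟩ := hT ⟨le, hle.refl, hle.trans⟩ (hbr1 B ⟨le, hle.refl, hle.trans⟩ hprop) D
    (by
      intro ξ x
      refine top_le_iff.1 ?_
      rw [← hD ξ]
      exact iInf_le _ x)
  refine ⟨G, fun x y => ?_, hdir, fun i => ?_⟩
  · rw [inf_comm]
    exact hup x y
  · rw [← hmeet i]
    exact iSup_congr fun x => inf_comm _ _

end Pool.Agent.Lib.MP_e6fef2_lc.H11
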